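import Pool.Agent.V1153.UR.Sum

/-!
# Exponential maps and rational maps to varieties which are not uniruled

Let `Y` be a projective variety, for instance one with a nonzero pluricanonical form, or of general
type. We consider dominant rational maps `X ⇢ Y` from projective varieties `X`, for instance the
identity map of `Y`, and nonconstant meromorphic maps from affine spaces of all dimensions to `X`
whose homogeneous coordinates are sums of `r` products of a polynomial of degree at most `e` and the
exponential of an entire function. The entire functions in the exponents are arbitrary.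

(1) `Y` is not uniruled.

(2) For every dominant rational map `X ⇢ Y` and all `r`, `e` there is one proper closed subset of `X`
such that all these meromorphic maps to `X` whose images are not contained in it have images in the
fibres of `X ⇢ Y`.

(3) For every dominant rational map `X ⇢ Y` and every `r` there is one proper closed subset of `X` such
that all nonconstant entire curves in `X` whose homogeneous coordinates are sums of `r` functions
`a exp (b z)`, and which are not contained in it, lie in the fibres of `X ⇢ Y`.

These properties are equivalent.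
-/

set_option autoImplicit false

namespace Pool.Agent.Results.MP_2a5ae2_ag.ExponentialFibres

open MvPolynomial Pool.Agent.V1153.UG Pool.Agent.V1153.XS Pool.Agent.V1153.UR
open Pool.Agent.TH143.GT (FunField Pluricanonical)
open Pool.Agent.W602.GT (GeneralType)

/-- For every dominant rational map `X ⇢ Y` the meromorphic maps to `X`, given by sums of `r` products
of a polynomial of degree at most `e` and the exponential of an entire function, outside one proper
closed subset lie in the fibres. -/
def ExponentialInFibres {m : ℕ} (J : Ideal (MvPolynomial (Fin (m + 1)) ℂ)) : Prop :=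
  ∀ (n : ℕ) (I : Ideal (MvPolynomial (Fin (n + 1)) ℂ)), I.IsPrime →
    ∀ (g : Fin (m + 1) → MvPolynomial (Fin (n + 1)) ℂ) (δ : ℕ), DomRat I g δ J →
      ∀ r e : ℕ, ∃ G : MvPolynomial (Fin (n + 1)) ℂ, (∃ m, G.IsHomogeneous m) ∧ G ∉ I ∧
        ∀ k f, ExpMap k r e I 1 f → (∀ z, eval (f z) G = 0) ∨ InFibre' g f

/-- For every dominant rational map `X ⇢ Y` the entire curves in `X`, given by sums of `r` functions
`a exp (b z)`, outside one proper closed subset lie in the fibres. -/
def LinearInFibres {m : ℕ} (J : Ideal (MvPolynomial (Fin (m + 1)) ℂ)) : Prop :=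
  ∀ (n : ℕ) (I : Ideal (MvPolynomial (Fin (n + 1)) ℂ)), I.IsPrime →
    ∀ (g : Fin (m + 1) → MvPolynomial (Fin (n + 1)) ℂ) (δ : ℕ), DomRat I g δ J →
      ∀ r : ℕ, ∃ G : MvPolynomial (Fin (n + 1)) ℂ, (∃ m, G.IsHomogeneous m) ∧ G ∉ I ∧
        ∀ f, Curve I 1 f →
          (∀ j, ∃ a b : Fin r → ℂ, ∀ z, f z j = ∑ i, a i * Complex.exp (b i * z)) →
          (∀ z, eval (f z) G = 0) ∨ InFibre g f

/-- Let `Y` be the projective variety with the ideal `J`. If `Y` has a nonzero pluricanonical form,
for instance if `Y` is of general type, then `Y` is not uniruled. The variety `Y` is not uniruled if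
and only if, for all dominant rational maps `X ⇢ Y` from projective varieties and all `r`, `e`, the
nonconstant meromorphic maps from affine spaces to `X`, given by sums of `r` products of a polynomial
of degree at most `e` and the exponential of an entire function, with images outside one proper closed
subset of `X` have images in the fibres; and this is equivalent to the same property of the entire
curves given by sums of `r` functions `a exp (b z)`. -/
theorem result {m : ℕ} (J : Ideal (MvPolynomial (Fin (m + 1)) ℂ)) (hJ : J.IsPrime) :
    List.TFAE [¬ Uniruled J, ExponentialInFibres J, LinearInFibres J] ∧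
    ∀ (K : Type) [Field K] [Algebra ℂ K] (w : ℕ) (y : Fin (m + 1) → K), FunField J 1 K w y →
      (GeneralType ℂ K w → ∃ N, 0 < N ∧
        ∃ ω : (Fin w → Derivation ℂ K K) → K, Pluricanonical w N ω ∧ ω ≠ 0) ∧
      ((∃ N, 0 < N ∧ ∃ ω : (Fin w → Derivation ℂ K K) → K, Pluricanonical w N ω ∧ ω ≠ 0) →
        ¬ Uniruled J) := by
  have h1h : (1 : MvPolynomial (Fin (m + 1)) ℂ).IsHomogeneous 0 := isHomogeneous_one _ _
  refine ⟨?_, fun K _ _ w y hy => ⟨form_of_gt, fun h h1 =>
    not_ruled_of_form hy h (uniruled_iff.2 h1)⟩⟩
  tfae_have 1 → 2 := by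
    intro h n I hI g δ hg r e
    exact exp_fibre hI (thin_of_not_ruled hJ h1h fun h1 => h (uniruled_iff.1 h1)) hg r e
  tfae_have 2 → 3 := by
    intro h n I hI g δ hg r
    obtain ⟨G, h1, h2, h3⟩ := h n I hI g δ hg r 0
    refine ⟨G, h1, h2, fun f hf hab => ?_⟩
    have hm : ExpMap 1 r 0 I 1 fun z => f (z 0) := by
      refine ⟨fun j => ?_, fun z => hf.mem _, fun z => hf.off _, ?_⟩
      · obtain ⟨a, b, hab⟩ := hab j
        refine ⟨fun i => C (a i), fun i z => b i * z 0, fun i => ⟨by rw [totalDegree_C],
          (differentiable_apply 0).const_mul _⟩, fun z => ?_⟩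
        refine (hab (z 0)).trans (Finset.sum_congr rfl fun i _ => ?_)
        rw [eval_C]
      · obtain ⟨z, w, j, k, hne⟩ := hf.nc
        exact ⟨fun _ => z, fun _ => w, j, k, hne⟩
    rcases h3 1 _ hm with h4 | ⟨⟨z, i, h4⟩, h5⟩
    · exact Or.inl fun z => h4 fun _ => z
    · exact Or.inr ⟨⟨z 0, i, h4⟩, fun z w i j => h5 (fun _ => z) (fun _ => w) i j⟩
  tfae_have 3 → 1 := by
    intro h
    by_cases hX : ∃ i, (X i : MvPolynomial (Fin (m + 1)) ℂ) ∉ J
    · have h2 : LinThin J 1 := by
        intro r
        obtain ⟨G, h1, h2, h3⟩ := h m J hJ X 1 (domRat_id hX) r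
        refine ⟨G, h1, h2, fun f hf hd => ?_⟩
        rcases h3 f hf hd with h4 | ⟨-, h4⟩
        · exact h4
        · exfalso
          obtain ⟨z, w, i, j, hne⟩ := hf.nc
          apply hne
          have h5 := h4 z w i j
          simpa only [eval_X] using h5
      exact fun h3 => not_ruled_of_thin (gmThin_of_linThin h1h h2) (uniruled_iff.2 h3)
    · push Not at hX
      exact not_ruled_of_X hX
  tfae_finish

end Pool.Agent.Results.MP_2a5ae2_ag.ExponentialFibres
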