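import Pool.Agent.V1153.PK.FPF
import Pool.Agent.V1153.UG.Six

/-!
# Derivatives of holomorphic discs in families of varieties

`F l t`, `Q t` and `G t` are continuous families of forms in `n + 1` variables, parametrised by a
topological space `T` with countable neighbourhood bases. `X_t` is the complement of `Q t = 0` in the
projective variety with the equations `fib F t = {F l t}`; for `Q t = 1` these are families of
projective varieties. We consider holomorphic maps from the unit disc to `X_t`.

`DAlgQ (fib F t) (Q t) m`: the maps all of whose quotients of homogeneous coordinates are algebraic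
functions which satisfy an equation of bidegree at most `(m, m)`.

`DCxQ (fib F t) (Q t) s r e d`: the maps of complexity at most `(s, r, e, d)`: in some open set the
homogeneous coordinates and `1 / Q t` of them, up to a common factor, are polynomials of degree at most
`e` in each of the functions `z`, `1 / q(z)` and the entries of the solutions `y_1, ..., y_s` of
iterated systems of `r` linear differential equations, and `q` is a polynomial of degree at most `d`.

`LocBdd t0 G γ 𝒟`: for each `c > 0` the Fubini-Study norms of the derivatives at the centre of the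
discs in `𝒟 t` with a centre such that `|G_t(f(0))| ≥ c |f(0)| ^ γ` are bounded by one constant for all
`t` in a neighbourhood of `t0`; in other words, the derivatives are bounded locally uniformly on the
complement of `{(t, x) : G_t(x) = 0}` in the product of `T` and the projective space.
-/

set_option autoImplicit false

namespace Pool.Agent.Results.MP_2a5ae2_ag.FamilyDerivatives

open MvPolynomial Filter Topology Pool.Agent.V1153.UG Pool.Agent.V1153.KB
open Pool.Agent.TH143.GT (FunField)
open Pool.Agent.W602.GT (LogGeneralType)
open Pool.Agent.W603.GR (OffQ)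

/-- **(1)** For all `D` and `(s, r, e, d)` there is `N` such that for all families of degrees at most
`D` the following holds: if for all `t` near `t0` the form `G t` vanishes on the images of all
nonconstant maps of degree at most `N` from the punctured line to `X_t`, then the derivatives of the
discs of complexity `(s, r, e, d)` in `X_t` are bounded locally uniformly near `t0` outside of
`Q_t G_t = 0`. **(2)** The forms `G t` vanish on the images of all nonconstant maps from the punctured
line to `X_t`, for all `t`, if and only if for all `(s, r, e, d)` the derivatives of the discs of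
complexity `(s, r, e, d)` are bounded locally uniformly outside of `Q_t G_t = 0`. **(3)** If, for a
single `t0`, the form `G t0` vanishes on the images of all nonconstant maps of degree at most
`(n + 1) m` from the affine line to `X_{t0}`, then the derivatives of the algebraic discs of bidegree
at most `(m, m)` in `X_t` are bounded locally uniformly near `t0` outside of `Q_t G_t = 0`, and for
each `c > 0` the curves of the affine line of degree at most `m` in `X_t`, for all `t` near `t0`, lie
in `|Q_t G_t(x)| < c |x| ^ (q + γ)`. **(4)** Assume that all points of `X_{t0}` are in the variety of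
a prime ideal `I` such that the complement of `Q_{t0} = 0` in this variety is not covered by curves of
the punctured line, or is of log general type, or pseudo Brody hyperbolic. Then for each `m` there is
a form `G` not in `I` such that the conclusions of (3) hold for `G t = G`. -/
theorem result (n : ℕ) :
    (∀ D s r e d : ℕ, ∃ N, ∀ (T : Type) [TopologicalSpace T] [FirstCountableTopology T] (ι : Type)
      (F : ι → T → MvPolynomial (Fin (n + 1)) ℂ) (Q G : T → MvPolynomial (Fin (n + 1)) ℂ)
      (q γ : ℕ), (∀ l, ∃ a ≤ D, CFam a (F l)) → q ≤ D → CFam q Q → γ ≤ D → CFam γ G → ∀ t0 : T,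
        (∀ᶠ t in 𝓝 t0, VanGm (Ideal.span (fib F t)) (Q t) N (G t)) →
          LocBdd t0 (fun t => Q t * G t) (q + γ) fun t => DCxQ (fib F t) (Q t) s r e d) ∧
    ∀ (T : Type) [TopologicalSpace T] [FirstCountableTopology T] (ι : Type)
      (F : ι → T → MvPolynomial (Fin (n + 1)) ℂ) (Q : T → MvPolynomial (Fin (n + 1)) ℂ) (D q : ℕ),
      (∀ l, ∃ a ≤ D, CFam a (F l)) → CFam q Q →
        (∀ (G : T → MvPolynomial (Fin (n + 1)) ℂ) (γ : ℕ), CFam γ G →
          ((∀ t N, VanGm (Ideal.span (fib F t)) (Q t) N (G t)) ↔ ∀ s r e d t0,
            LocBdd t0 (fun t => Q t * G t) (q + γ) fun t => DCxQ (fib F t) (Q t) s r e d) ∧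
          ∀ t0 m, VanLine (fib F t0) (Q t0) ((n + 1) * m) (G t0) →
            LocBdd t0 (fun t => Q t * G t) (q + γ) (fun t => DAlgQ (fib F t) (Q t) m) ∧
            LinesNear t0 (fib F) Q m (fun t => Q t * G t) (q + γ)) ∧
        ∀ (t0 : T) (I : Ideal (MvPolynomial (Fin (n + 1)) ℂ)), I.IsPrime →
          (∀ x : Fin (n + 1) → ℂ, (∀ H ∈ fib F t0, eval x H = 0) →
            ∀ H ∈ I, (∃ d, H.IsHomogeneous d) → eval x H = 0) →
          (¬ GmRuled I (Q t0) ∨ PseudoBrody I (Q t0) ∨
            ∃ (K : Type) (_ : Field K) (_ : Algebra ℂ K) (w : ℕ) (y : Fin (n + 1) → K),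
              FunField I (Q t0) K w y ∧ LogGeneralType ℂ K w (OffQ (Q t0) q y)) →
          ∀ m : ℕ, ∃ (G : MvPolynomial (Fin (n + 1)) ℂ) (γ : ℕ), G.IsHomogeneous γ ∧ G ∉ I ∧
            LocBdd t0 (fun t => Q t * G) (q + γ) (fun t => DAlgQ (fib F t) (Q t) m) ∧
            LinesNear t0 (fib F) Q m (fun t => Q t * G) (q + γ) := by
  refine ⟨fun D s r e d => fam_cxF n D s r e d, fun T _ _ ι F Q D q hF hQ =>
    ⟨fun G γ hG => ⟨⟨fun h s r e d t0 => ?_, fun h t N => ?_⟩, fun t0 m hv => ?_⟩,
      fun t0 I hI hIF h m => ?_⟩⟩
  · obtain ⟨N, hN⟩ := fam_cxF n (max D (max q γ)) s r e d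
    refine hN T ι F Q G q γ (fun l => ?_) ((le_max_left _ _).trans (le_max_right _ _)) hQ
      ((le_max_right _ _).trans (le_max_right _ _)) hG t0 (Eventually.of_forall fun t => h t N)
    obtain ⟨a, ha, h1⟩ := hF l
    exact ⟨a, ha.trans (le_max_left _ _), h1⟩
  · exact van_of_loc hF hQ hG (fun s r e d => h s r e d t) N
  · have hF' : ∀ l, ∃ a, CFam a (F l) := fun l => by
      obtain ⟨a, -, ha⟩ := hF l
      exact ⟨a, ha⟩
    exact ⟨fam_off hF' hQ hG hv, fam_lines hF' hQ hG hv⟩
  · have hF' : ∀ l, ∃ a, CFam a (F l) := fun l => by
      obtain ⟨a, -, ha⟩ := hF l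
      exact ⟨a, ha⟩
    refine open_of_not_ruled hF' hQ hI (fun x hx H hH => hIF x hx H hH.1 hH.2) ?_ m
    rcases h with h | h | ⟨K, _, _, w, y, hy, hL⟩
    · exact h
    · exact ((six hI (hQ.hom t0)).out 0 2).2 h.thin
    · exact not_ruled_of_lgt (hQ.hom t0) hy hL

end Pool.Agent.Results.MP_2a5ae2_ag.FamilyDerivatives
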