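import Pool.Agent.V1153.UG.Img

/-!
# Entire curves of bounded complexity and rational maps to varieties which are not uniruled

Let `Y` be a projective variety, for instance one with a nonzero pluricanonical form, or of general
type. We consider dominant rational maps `X ⇢ Y` from projective varieties `X`, for instance the
identity map of `Y`, and nonconstant entire curves in `X` of bounded complexity.

(1) `Y` is not uniruled.

(2) For every dominant rational map `X ⇢ Y` and all `s`, `r`, `e`, `d` there is one proper closed
subset of `X` such that all nonconstant entire curves in `X` of complexity at most `(s, r, e, d)`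
which are not contained in it lie in the fibres of `X ⇢ Y`. Here the complexity is at most
`(s, r, e, d)` if the homogeneous coordinates, in some open set and up to a common factor, are
polynomials of degree at most `e` in each of the functions `z`, `1 / q(z)` and the entries of the
solutions `y_1, ..., y_s` of iterated systems of `r` linear differential equations: the coefficients
of the system for `y_l` are polynomials of degree at most `e` in each of `z`, `1 / q(z)` and the
entries of `y_1, ..., y_{l-1}`, and `q` is a polynomial of degree at most `d`.

(3) For every dominant rational map `X ⇢ Y` and all `r`, `d` there is one proper closed subset of `X`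
such that all nonconstant entire curves in `X` whose homogeneous coordinates satisfy linear
differential equations of order at most `r` with polynomial coefficients of degree at most `d`, and
which are not contained in it, lie in the fibres of `X ⇢ Y`.

These properties are equivalent. For the identity map of `Y` the conclusion says that the
nonconstant entire curves of bounded complexity are contained in one proper closed subset of `Y`.
-/

set_option autoImplicit false

namespace Pool.Agent.Results.MP_2a5ae2_ag.UniformFibres

open MvPolynomial Pool.Agent.V1153.UG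
open Pool.Agent.TH143.GT (FunField Pluricanonical)
open Pool.Agent.W602.GT (GeneralType)

/-- For every dominant rational map `X ⇢ Y` the entire curves in `X` of bounded complexity outside
one proper closed subset lie in the fibres. -/
def IteratedInFibres {k : ℕ} (J : Ideal (MvPolynomial (Fin (k + 1)) ℂ)) : Prop :=
  ∀ (n : ℕ) (I : Ideal (MvPolynomial (Fin (n + 1)) ℂ)), I.IsPrime →
    ∀ (g : Fin (k + 1) → MvPolynomial (Fin (n + 1)) ℂ) (δ : ℕ), DomRat I g δ J →
      ∀ s r e d : ℕ, ∃ G : MvPolynomial (Fin (n + 1)) ℂ, (∃ m, G.IsHomogeneous m) ∧ G ∉ I ∧
        ∀ f, Curve I 1 f → Bdd Set.univ 1 s r e d f → (∀ z, eval (f z) G = 0) ∨ InFibre g f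

/-- For every dominant rational map `X ⇢ Y` the entire curves in `X` whose coordinates satisfy linear
differential equations of bounded order and degree outside one proper closed subset lie in the
fibres. -/
def DFiniteInFibres {k : ℕ} (J : Ideal (MvPolynomial (Fin (k + 1)) ℂ)) : Prop :=
  ∀ (n : ℕ) (I : Ideal (MvPolynomial (Fin (n + 1)) ℂ)), I.IsPrime →
    ∀ (g : Fin (k + 1) → MvPolynomial (Fin (n + 1)) ℂ) (δ : ℕ), DomRat I g δ J →
      ∀ r d : ℕ, ∃ G : MvPolynomial (Fin (n + 1)) ℂ, (∃ m, G.IsHomogeneous m) ∧ G ∉ I ∧
        ∀ f, Curve I 1 f → (∀ j, DFin r d fun z => f z j) →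
          (∀ z, eval (f z) G = 0) ∨ InFibre g f

/-- Let `Y` be the projective variety with the ideal `J`. If `Y` has a nonzero pluricanonical form,
for instance if `Y` is of general type, then `Y` is not uniruled. The variety `Y` is not uniruled if
and only if, for all dominant rational maps `X ⇢ Y` from projective varieties and each complexity,
the nonconstant entire curves in `X` of this complexity outside one proper closed subset of `X` lie
in the fibres; and this is equivalent to the same property of the entire curves whose coordinates
satisfy linear differential equations with polynomial coefficients of bounded order and degree. -/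
theorem result {k : ℕ} (J : Ideal (MvPolynomial (Fin (k + 1)) ℂ)) (hJ : J.IsPrime) :
    List.TFAE [¬ Uniruled J, IteratedInFibres J, DFiniteInFibres J] ∧
    ∀ (K : Type) [Field K] [Algebra ℂ K] (w : ℕ) (y : Fin (k + 1) → K), FunField J 1 K w y →
      (GeneralType ℂ K w → ∃ N, 0 < N ∧
        ∃ ω : (Fin w → Derivation ℂ K K) → K, Pluricanonical w N ω ∧ ω ≠ 0) ∧
      ((∃ N, 0 < N ∧ ∃ ω : (Fin w → Derivation ℂ K K) → K, Pluricanonical w N ω ∧ ω ≠ 0) →
        ¬ Uniruled J) := by
  have h1h : (1 : MvPolynomial (Fin (k + 1)) ℂ).IsHomogeneous 0 := isHomogeneous_one _ _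
  refine ⟨?_, fun K _ _ w y hy => ⟨form_of_gt, fun h h1 =>
    not_ruled_of_form hy h (uniruled_iff.2 h1)⟩⟩
  tfae_have 1 → 2 := by
    intro h n I hI g δ hg s r e d
    exact fibre_thin hI (thin_of_not_ruled hJ h1h fun h1 => h (uniruled_iff.1 h1)) hg s r e d
  tfae_have 2 → 3 := by
    intro h n I hI g δ hg r d
    obtain ⟨G, h1, h2, h3⟩ := h n I hI g δ hg 1 ((n + 1) * r) ((n + 1) * d + 1) ((n + 1) * d)
    exact ⟨G, h1, h2, fun f hf hd => h3 f hf (DFin.bdd hf.diff hd)⟩
  tfae_have 3 → 1 := by
    intro h
    by_cases hX : ∃ i, (X i : MvPolynomial (Fin (k + 1)) ℂ) ∉ J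
    · have h2 : GmThin J 1 := by
        refine gmThin_of_dfin h1h fun r d => ?_
        obtain ⟨G, h1, h2, h3⟩ := h k J hJ X 1 (domRat_id hX) r d
        refine ⟨G, h1, h2, fun f hf hd => ?_⟩
        rcases h3 f hf hd with h4 | ⟨-, h4⟩
        · exact h4
        · exfalso
          obtain ⟨z, w, i, j, hne⟩ := hf.nc
          apply hne
          have h5 := h4 z w i j
          simpa only [eval_X] using h5
      exact fun h3 => not_ruled_of_thin h2 (uniruled_iff.2 h3)
    · push Not at hX
      exact not_ruled_of_X hX
  tfae_finish

end Pool.Agent.Results.MP_2a5ae2_ag.UniformFibres
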